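import Pool.Agent.W_4481e3_q87.GoR
import Pool.Agent.W_4481e3_tab.T9

/-!
Tree s12o9, data 4.
-/

namespace Pool.Agent.W_4481e3_rt.s12o9

open Pool.Agent.W_4481e3_q25.EvR

theorem k82 : ckO Pool.Agent.W_4481e3_tab.T9.tab 4372160 6498560 16777216 8388608 11862016 14483456 16 1572864 524288 2621440 524288 511768002 529698652 3586130 7172260 268435456 268435456 16777216 16777216 14628291 14628291 0x102000c02000c02000c03000c21202000c03000c103000c03000c04000c204000c05070c21203000c03000c04000c03000c04000c04000c04000c05000c121212103000c05000c205000c05000c05070c206000c05000c06000c2512105070c05029c206000c06000c21204000c04000c05000c06000c12106000c206000c06000c06000c2106000c06000c207000c07000c212106000c06000c106000c07000c1206000c07000c207000c07000c21bb121282a1b7a52a71212103000c04000c204000c04000c05029c2104000c04000c04000c04000c21204000c05000c205029c06000c2104000c05000cb2106000c2bb21212104000c04000c204000c04000cb2104000cb12bb1b2104000cb104000cb12bb2121205029c05070c205029c05070c105070c05029cb212822407991b7105029c06000c206000c1bb2b12818a3788377bb2b1b2822887865b71205029c05029c206000c06000c21bb2b12828d779bcc706000cb2b1b2b182f5a7a18c7b21b28335a797cb71bb280f4f777d67b1bb12b1281b2277b6471280e287a6ff7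 = true := by decide +kernel

theorem k84 : ckO Pool.Agent.W_4481e3_tab.T9.tab 4372160 6498560 16777216 8388608 11862016 14483456 5 1572864 524288 2621440 524288 515354132 515354132 7172260 7172260 268435456 268435456 16777216 16777216 14628291 14628291 0x102000c02000c02000c1202000c02000c03000c202000c03000c2121 = true := by decide +kernel

theorem k87 : ckO Pool.Agent.W_4481e3_tab.T9.tab 4372160 6498560 16777216 8388608 11862016 14483456 5 1572864 524288 2621440 524288 522526392 493837352 14344520 14344520 268435456 268435456 16777216 16777216 14628291 14628291 0x100000c00000c01000c201000c02000c21201000c01029c01007c121 = true := by decide +kernel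

theorem k89 : ckO Pool.Agent.W_4481e3_tab.T9.tab 4372160 6498560 16777216 8388608 11862016 14483456 9 1572864 524288 2621440 524288 493837352 508181872 14344520 28689040 268435456 268435456 16777216 16777216 14628291 14628291 0x100000c00000c00000c00000c00000c02000c12100000c00000c200000c00000c202000c02000c2102000c02000c202000c03000c104000c2121212 = true := by decide +kernel

end Pool.Agent.W_4481e3_rt.s12o9
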